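import Pool.Agent.N817.PL.Main2
import Pool.Agent.N817.OP.Two

/-!
# Two-dimensional representations and Frobenius elements with eigenvalues of ratio outside `ℚ_p`

Let `K` be a number field (for the conjecture `K = ℚ`), `F` a finite extension of `ℚ_p` and
`ρ : G_K → GL_2(F)` a continuous representation which is absolutely irreducible, is not dihedral (no
line over an algebraic closure of `F` is stable under an open subgroup of index two), and whose
projective image is infinite (`ρ` is not scalar on any open subgroup).

Theorem. The finite places `v` of `K` such that, for every Frobenius element `g` at `v`, no power with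
positive exponent of the ratio of the eigenvalues of `ρ(g)` is in `ℚ_p`, have positive lower density.

More generally: if `ρ : G_K → GL_n(F)` is continuous, semisimple and not potentially abelian, then the
finite places `v` such that for every Frobenius element `g` at `v` there are eigenvalues `a`, `b` of
`ρ(g)` such that no power of `a / b` is in `ℚ_p`, have positive lower density.

Nothing is assumed on the ramification of `ρ` and on the places above `p`, and `ρ` need not be odd or
residually irreducible; `p = 2` is allowed.

For the conjecture of Fontaine and Mazur: let `V` be an irreducible two-dimensional representation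
of `G_ℚ` which is potentially semistable at `p` with distinct Hodge-Tate weights. It is absolutely
irreducible and its projective image is infinite (otherwise the Hodge-Tate weights would be equal), and
if it is dihedral then it is induced from a character of Hodge-Tate type of a quadratic field, hence it
is the twist of the representation of a modular form with complex multiplication (Tate, Serre,
Hecke). So the conjecture holds for `V` if the ratio of the eigenvalues of `Frob_ℓ` has a power in
`ℚ_p` for all `ℓ` outside a set of lower density zero; for example if `V` has coefficients in `ℚ_p` and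
the characteristic polynomials of `Frob_ℓ` are products of linear factors over `ℚ_p` for almost all
`ℓ`. (This paragraph is not part of the formal proof.)

Proof. (1) The set of all `g` in `G_K` such that the ratios of the eigenvalues of `ρ(g) ^ N` are in
`ℚ_p` is closed; with the `p`-adic logarithm one can take `N` uniform. If the lower density were zero,
by the theorem of Chebotarev (from the library) this set would be the whole group. (2) Hence all
elements `X` of the Lie algebra `𝔤` of `ρ(U)`, `U` open and small, are such that `ad X` is split over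
`ℚ_p`. (3) If `𝔤` were not solvable then the quotient by its radical would contain a triple
`(h, e, f)` as in `𝔰𝔩_2`; the square of `ad (e + p f)` maps `h` to `4 p h`, so that `p` would be a
square in `ℚ_p`. (4) By the theorem of Lie and semisimplicity `ρ(U)` is commutative. In dimension two
it follows that `ρ(U)` consists of scalars or that `ρ` is dihedral.
-/

set_option autoImplicit false

namespace Pool.Agent.Results.MP_b583a4_nt.RatiosOutsideQp

open NumberField IsDedekindDomain Filter Matrix

/-- the absolute Galois group of the field `K`, with the Krull topology -/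
abbrev AbsGal (K : Type) [Field K] : Type := Gal(AlgebraicClosure K/K)

/-- `g` is an (arithmetic) Frobenius element at a maximal ideal `Q` of the ring of all algebraic
integers which lies above the finite place `v` of `K`. -/
def IsFrobenius {K : Type} [Field K] [NumberField K] (v : HeightOneSpectrum (𝓞 K))
    (g : AbsGal K) : Prop :=
  ∃ Q : Ideal (𝓞 (AlgebraicClosure K)), Q.IsMaximal ∧
    Q.comap (algebraMap (𝓞 K) (𝓞 (AlgebraicClosure K))) = v.asIdeal ∧
    ∀ x : 𝓞 (AlgebraicClosure K), g • x - x ^ Ideal.absNorm v.asIdeal ∈ Q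

/-- The set `P` of finite places of `K` has positive lower density: for some `δ > 0` and all large
`x` it contains at least `δ π(x)` places of norm at most `x`. -/
def PositiveLowerDensity {K : Type} [Field K] [NumberField K]
    (P : Set (HeightOneSpectrum (𝓞 K))) : Prop :=
  ∃ δ : ℝ, 0 < δ ∧ ∀ᶠ x : ℕ in atTop,
    δ * Nat.primeCounting x ≤ ({v ∈ P | Ideal.absNorm v.asIdeal ≤ x}.ncard : ℝ)

section
variable {K F : Type} [Field K] [Field F] {n : ℕ}

/-- the matrix of `g` -/
noncomputable def mat (ρ : AbsGal K →* GL (Fin n) F) (g : AbsGal K) : Matrix (Fin n) (Fin n) F :=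
  (ρ g : GL (Fin n) F)

/-- `U` is a subrepresentation of `ρ`. -/
def Stable (ρ : AbsGal K →* GL (Fin n) F) (U : Submodule F (Fin n → F)) : Prop :=
  ∀ g, ∀ x ∈ U, mat ρ g *ᵥ x ∈ U

/-- `ρ` is semisimple (for example irreducible). -/
def Semisimple (ρ : AbsGal K →* GL (Fin n) F) : Prop :=
  ∀ U, Stable ρ U → ∃ U', Stable ρ U' ∧ IsCompl U U'

/-- There is an open normal subgroup on which `ρ` is commutative. -/
def PotentiallyAbelian (ρ : AbsGal K →* GL (Fin n) F) : Prop :=
  ∃ U : Subgroup (AbsGal K), U.Normal ∧ IsOpen (U : Set (AbsGal K)) ∧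
    ∀ u ∈ U, ∀ v ∈ U, ρ u * ρ v = ρ v * ρ u

/-- The line spanned by some non-zero vector with coordinates in an algebraic closure of `F` is stable
under the subgroup `H`. -/
def StableLine (ρ : AbsGal K →* GL (Fin 2) F) (H : Subgroup (AbsGal K)) : Prop :=
  ∃ x : Fin 2 → AlgebraicClosure F, x ≠ 0 ∧ ∀ g ∈ H, ∃ c : AlgebraicClosure F,
    (mat ρ g).map (algebraMap F (AlgebraicClosure F)) *ᵥ x = c • x

/-- `ρ` is absolutely irreducible. -/
def AbsolutelyIrreducible (ρ : AbsGal K →* GL (Fin 2) F) : Prop := ¬ StableLine ρ ⊤

/-- `ρ` is induced, over an algebraic closure of `F`, from an open subgroup of index two, that is from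
a quadratic extension of `K`: such a subgroup stabilises a line. -/
def Dihedral (ρ : AbsGal K →* GL (Fin 2) F) : Prop :=
  ∃ H : Subgroup (AbsGal K), IsOpen (H : Set (AbsGal K)) ∧ H.index = 2 ∧ StableLine ρ H

/-- `ρ` is scalar on an open subgroup: its projective image is finite. -/
def PotentiallyScalar (ρ : AbsGal K →* GL (Fin 2) F) : Prop :=
  ∃ U : Subgroup (AbsGal K), IsOpen (U : Set (AbsGal K)) ∧ ∀ u ∈ U, ∃ c : F, mat ρ u = c • 1

/-- There are eigenvalues `a`, `b` of `ρ(g)`, in an algebraic closure of `F`, such that
`a ^ m ≠ c b ^ m` for all `m > 0` and all `c ∈ ℚ_p`. -/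
def RatioOutsideQp (p : ℕ) [Fact p.Prime] [Algebra ℚ_[p] F] (ρ : AbsGal K →* GL (Fin n) F)
    (g : AbsGal K) : Prop :=
  ∃ a b : AlgebraicClosure F,
    ((mat ρ g).charpoly.map (algebraMap F (AlgebraicClosure F))).IsRoot a ∧
    ((mat ρ g).charpoly.map (algebraMap F (AlgebraicClosure F))).IsRoot b ∧
    ∀ m : ℕ, 0 < m → ∀ c : ℚ_[p],
      a ^ m ≠ algebraMap F (AlgebraicClosure F) (algebraMap ℚ_[p] F c) * b ^ m

end

/-- the theorem for semisimple representations of any dimension -/
theorem semisimple_case {K : Type} [Field K] [NumberField K] (p : ℕ) [Fact p.Prime] {F : Type}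
    [NormedField F] [NormedAlgebra ℚ_[p] F] [FiniteDimensional ℚ_[p] F] {n : ℕ}
    (ρ : AbsGal K →* GL (Fin n) F) (hρ : Continuous ρ) (hss : Semisimple ρ)
    (hna : ¬ PotentiallyAbelian ρ) :
    PositiveLowerDensity {v : HeightOneSpectrum (𝓞 K) | ∀ g, IsFrobenius v g →
      RatioOutsideQp p ρ g} := by
  by_contra hcon
  apply hna
  obtain ⟨U, hU⟩ := Pool.Agent.N817.PL.Main2.main p ((Units.coeHom _).comp ρ)
    (Units.continuous_val.comp hρ) hss
    {v : HeightOneSpectrum (𝓞 K) | ∃ g, IsFrobenius v g ∧ ¬ RatioOutsideQp p ρ g} (by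
      intro ε hε
      have h1 : ¬ ∀ᶠ x : ℕ in atTop, ε * Nat.primeCounting x ≤
          (({v ∈ {v : HeightOneSpectrum (𝓞 K) | ∀ g, IsFrobenius v g → RatioOutsideQp p ρ g} |
            Ideal.absNorm v.asIdeal ≤ x}).ncard : ℝ) := fun h => hcon ⟨ε, hε, h⟩
      have h2 := (Filter.not_eventually.1 h1)
      refine (h2.and_eventually
        (Nat.tendsto_primeCounting.eventually_gt_atTop 0)).mono ?_
      rintro x ⟨h3, h4⟩
      have h5 : (0 : ℝ) < (Nat.primeCounting x : ℝ) := by exact_mod_cast h4
      unfold Pool.Agent.W401.Cheb.dens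
      rw [div_le_iff₀ h5]
      push Not at h3
      refine le_trans (le_of_eq ?_) h3.le
      have h6 : {v : HeightOneSpectrum (𝓞 K) | Ideal.absNorm v.asIdeal ≤ x ∧
          v ∉ {v : HeightOneSpectrum (𝓞 K) | ∃ g, IsFrobenius v g ∧ ¬ RatioOutsideQp p ρ g}} =
          {v ∈ {v : HeightOneSpectrum (𝓞 K) | ∀ g, IsFrobenius v g → RatioOutsideQp p ρ g} |
            Ideal.absNorm v.asIdeal ≤ x} := by
        ext v
        constructor
        · rintro ⟨ha, hb⟩
          refine ⟨fun g hg => ?_, ha⟩
          by_contra hc
          exact hb ⟨g, hg, hc⟩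
        · rintro ⟨ha, hb⟩
          refine ⟨hb, ?_⟩
          rintro ⟨g, hg, hc⟩
          exact hc (ha g hg)
      rw [← h6]
      rfl) (by
      rintro v ⟨g, hg, hr⟩
      refine ⟨g, hg, ?_⟩
      intro a b ha hb
      by_contra hno
      apply hr
      refine ⟨a, b, ha, hb, fun m hm c hc => hno ⟨m, hm, c, hc⟩⟩)
  refine ⟨U.toSubgroup, U.isNormal', U.isOpen', fun u hu v hv => ?_⟩
  exact Units.ext (hU u hu v hv)

/-- an absolutely irreducible representation is semisimple -/
theorem semisimple_of_irreducible {K F : Type} [Field K] [Field F]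
    (ρ : AbsGal K →* GL (Fin 2) F) (h : AbsolutelyIrreducible ρ) : Semisimple ρ := by
  intro U hU
  by_cases hbot : U = ⊥
  · exact ⟨⊤, fun g x _ => Submodule.mem_top, hbot ▸ isCompl_bot_top⟩
  by_cases htop : U = ⊤
  · refine ⟨⊥, fun g x hx => ?_, htop ▸ isCompl_top_bot⟩
    rw [Submodule.mem_bot] at hx ⊢
    rw [hx, Matrix.mulVec_zero]
  exfalso
  apply h
  have h1 : Module.finrank F U < 2 := by
    have := Submodule.finrank_lt htop
    simpa using this
  have h2 : 0 < Module.finrank F U := by
    rw [Module.finrank_pos_iff]
    exact Submodule.nontrivial_iff_ne_bot.2 hbot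
  have h3 : Module.finrank F U = 1 := by omega
  obtain ⟨w, hw, hspan⟩ := finrank_eq_one_iff'.1 h3
  refine ⟨fun i => algebraMap F (AlgebraicClosure F) ((w : Fin 2 → F) i), ?_, fun g _ => ?_⟩
  · intro h0
    apply hw
    ext i
    have := congrFun h0 i
    simpa using this
  · obtain ⟨c, hc⟩ := hspan ⟨mat ρ g *ᵥ (w : Fin 2 → F), hU g _ w.2⟩
    refine ⟨algebraMap F _ c, ?_⟩
    have hc' : c • (w : Fin 2 → F) = mat ρ g *ᵥ (w : Fin 2 → F) := congrArg Subtype.val hc
    ext i
    have := congrArg (algebraMap F (AlgebraicClosure F)) (congrFun hc' i)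
    simp only [Matrix.mulVec, dotProduct, Pi.smul_apply, smul_eq_mul, map_mul, map_sum,
      Matrix.map_apply] at this ⊢
    exact this.symm

/-- **Frobenius elements with eigenvalues of ratio outside `ℚ_p`.**

Let `K` be a number field, `p` a prime number and `F` a finite extension of `ℚ_p` with the absolute
value which extends the `p`-adic one.

(1) Let `ρ : G_K → GL_2(F)` be continuous, absolutely irreducible, not dihedral and not potentially
scalar. Then the finite places `v` such that for every Frobenius element `g` at `v` no power, with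
positive exponent, of the ratio of the eigenvalues of `ρ(g)` is in `ℚ_p`, have positive lower density.

(2) More generally let `ρ : G_K → GL_n(F)` be continuous, semisimple and not potentially abelian. Then
the places `v` such that for every Frobenius element `g` at `v` there are eigenvalues `a`, `b` of
`ρ(g)` such that no power of `a / b` is in `ℚ_p`, have positive lower density. -/
theorem result {K : Type} [Field K] [NumberField K] (p : ℕ) [Fact p.Prime] {F : Type}
    [NormedField F] [NormedAlgebra ℚ_[p] F] [FiniteDimensional ℚ_[p] F] :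
    (∀ ρ : AbsGal K →* GL (Fin 2) F, Continuous ρ → AbsolutelyIrreducible ρ → ¬ Dihedral ρ →
      ¬ PotentiallyScalar ρ →
      PositiveLowerDensity {v : HeightOneSpectrum (𝓞 K) | ∀ g, IsFrobenius v g →
        RatioOutsideQp p ρ g}) ∧
    (∀ (n : ℕ) (ρ : AbsGal K →* GL (Fin n) F), Continuous ρ → Semisimple ρ →
      ¬ PotentiallyAbelian ρ →
      PositiveLowerDensity {v : HeightOneSpectrum (𝓞 K) | ∀ g, IsFrobenius v g →
        RatioOutsideQp p ρ g}) := by
  refine ⟨fun ρ hρ hirr hd hs => ?_, fun n ρ hρ hss hna => semisimple_case p ρ hρ hss hna⟩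
  refine semisimple_case p ρ hρ (semisimple_of_irreducible ρ hirr) ?_
  rintro ⟨U, hUn, hUo, hU⟩
  have hns : ∃ u ∈ U, ∀ c : F, mat ρ u ≠ c • 1 := by
    by_contra hcon
    push Not at hcon
    exact hs ⟨U, hUo, hcon⟩
  obtain ⟨u0, hu0, hns⟩ := hns
  let r : AbsGal K →* Matrix (Fin 2) (Fin 2) (AlgebraicClosure F) :=
    (((algebraMap F (AlgebraicClosure F)).mapMatrix : Matrix (Fin 2) (Fin 2) F →+*
      Matrix (Fin 2) (Fin 2) (AlgebraicClosure F)) : Matrix (Fin 2) (Fin 2) F →*
      Matrix (Fin 2) (Fin 2) (AlgebraicClosure F)).comp ((Units.coeHom _).comp ρ)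
  have hr : ∀ g, r g = (mat ρ g).map (algebraMap F (AlgebraicClosure F)) := fun g => rfl
  have := hUn
  obtain ⟨H, hUH, hH2, x, hx, hline⟩ := Pool.Agent.N817.OP.Two.dihedral r U (by
      intro u hu v hv
      have h1 : ρ (u * v) = ρ (v * u) := by rw [map_mul, map_mul, hU u hu v hv]
      have h2 : mat ρ (u * v) = mat ρ (v * u) := by unfold mat; rw [h1]
      rw [← map_mul, ← map_mul, hr, hr, h2]) u0 hu0 (by
      intro d hd'
      rw [hr] at hd'
      apply hns (mat ρ u0 0 0)
      have e00 := congrFun (congrFun hd' 0) 0
      have e01 := congrFun (congrFun hd' 0) 1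
      have e10 := congrFun (congrFun hd' 1) 0
      have e11 := congrFun (congrFun hd' 1) 1
      simp only [Matrix.map_apply, Matrix.smul_apply, Matrix.one_apply_eq, smul_eq_mul, mul_one,
        ne_eq, zero_ne_one, one_ne_zero, not_false_eq_true, Matrix.one_apply_ne, mul_zero]
        at e00 e01 e10 e11
      have f01 : mat ρ u0 0 1 = 0 := (map_eq_zero _).1 e01
      have f10 : mat ρ u0 1 0 = 0 := (map_eq_zero _).1 e10
      have f11 : mat ρ u0 1 1 = mat ρ u0 0 0 :=
        (algebraMap F (AlgebraicClosure F)).injective (e11.trans e00.symm)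
      ext i j
      fin_cases i <;> fin_cases j <;> simp [f01, f10, f11]) (by
      rintro ⟨x, hx, hl⟩
      exact hirr ⟨x, hx, fun g _ => hl g⟩)
  refine hd ⟨H, ?_, hH2, x, hx, fun g hg => hline g hg⟩
  exact Subgroup.isOpen_mono hUH hUo

end Pool.Agent.Results.MP_b583a4_nt.RatiosOutsideQp
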